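import Pool.Agent.Helper59.EX.BettiFinal
import Pool.Agent.Helper59.EXP.Bridge

/-!
# MP_15c9fc_an: groups with large first l2-Betti number
-/

namespace Pool.Agent.Helper59.Old.MP15c9fcFirstL2Betti

open Pool.Agent.Helper59.EXP
open Pool.Agent.Helper59.EX (l2Betti betti_final)

/-- Let `G` be an infinite group generated by a finite family of `k` elements, with first
l2-Betti number greater than `2 sqrt k - 1`. Then the full group C*-algebra of `G`, and of every
group having `G` as a subquotient, is not exact. -/
theorem result {G I : Type} [Group G] [Infinite G] [Fintype I] (s : I → G)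
    (hs : Subgroup.closure (Set.range s) = ⊤)
    (h : 2 * Real.sqrt (Fintype.card I) - 1 < l2Betti s) (Γ : Type) [Group Γ]
    (hΓ : HasSubquotient Γ G) : FullNotExact Γ :=
  fullNotExact_of Γ (betti_final s hs h Γ hΓ)

end Pool.Agent.Helper59.Old.MP15c9fcFirstL2Betti
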