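import Pool.Agent.Helper59.HD.ConvB

/-!
# MP_541d70_co: convex sets that decompose along a forest of blocks have property `Sz(r)`
-/

namespace Pool.Agent.Helper59.Old.MP541d70coForestSufficient

open Pool.Agent.Helper59.HD

/-- A convex set that decomposes along a forest of blocks of coordinates has property `Sz(r)` if on
each root path the product of the numbers (size of the block) + 1 is at most `r + 1`. -/
theorem result {n m r : ℕ} {F : Set (EuclideanSpace ℝ (Fin n))} (hF : Convex ℝ F)
    (e : EuclideanSpace ℝ (Fin n) ≃ₗ[ℝ] (Fin n → ℝ)) (blk : Fin n → Fin m)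
    (le : Fin m → Fin m → Prop) (hle : Forest le) (hD : Decomp e blk le F)
    (hprod : ∀ x, ∏ y ∈ path le x, (bdim blk y + 1) ≤ r + 1) : Sz r F :=
  sz_of_decomp hF e blk le hle hD hprod

end Pool.Agent.Helper59.Old.MP541d70coForestSufficient
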