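import Pool.Agent.Helper59.DF.Final

/-!
# The volume of a field of constant length, its divergence, and the Hopf fields

Let `W` be a `C¹` tangent vector field of constant length `r` on the unit sphere `S` of dimension
`2m+1`, `m ≥ 1`, and `H = (det (I + ∇W) - det (I - ∇W)) / 2` the sum of the elementary symmetric
functions of odd order of `∇W`.  Then `∫ √(det (I + (∇W)ᵗ∇W) + H²) ≥ (1+r²)^m vol(S)`, with equality
exactly for the Hopf fields.  On the five-sphere (`m = 2`) the divergence alone controls the
comparison: `Vol(W) + 1/4 ∫ (div W)² ≥ (1+r²)² vol(S)`, with equality exactly for the Hopf fields.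
So the Hopf fields are exactly the volume minimisers among the divergence free fields of length `r`
on the five-sphere, for every `r > 0`.
-/

open MeasureTheory Set Metric Module Filter
open scoped RealInnerProductSpace Real Manifold ContDiff

namespace Pool.Agent.Helper59.Old.SolenoidalHopf

open Classical in
/-- The radially constant extension `y ↦ W (y/|y|)` of a map on the unit sphere (`0` at `0`). -/
noncomputable def radialExt {E : Type*} [NormedAddCommGroup E] [InnerProductSpace ℝ E]
    (W : sphere (0 : E) 1 → E) (y : E) : E :=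
  if hy : y = 0 then 0
  else W ⟨‖y‖⁻¹ • y, by
    rw [mem_sphere_zero_iff_norm, norm_smul, norm_inv, norm_norm,
      inv_mul_cancel₀ (norm_ne_zero_iff.2 hy)]⟩

/-- The covariant derivative `(∇W)_x` at a point `x` of the unit sphere `S ⊂ E` of a vector field
`W : S → E`: the orthogonal projection to `x^⊥ = T_x S` of the derivative at `x` of the radially
constant extension of `W`.  As an operator on `E = ℝx ⊕ T_x S` it is zero on `ℝx`, and it has
values in `T_x S`. -/
noncomputable def covDeriv {E : Type*} [NormedAddCommGroup E] [InnerProductSpace ℝ E]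
    (W : sphere (0 : E) 1 → E) (x : sphere (0 : E) 1) : E →L[ℝ] E :=
  fderiv ℝ (radialExt W) x - ((innerSL ℝ (x : E)) ∘L fderiv ℝ (radialExt W) x).smulRight (x : E)

/-- The volume of a vector field on the unit sphere: `∫_S √det (I + (∇W)ᵗ ∇W)` with respect to the
surface measure. -/
noncomputable def fieldVolume {E : Type*} [NormedAddCommGroup E] [InnerProductSpace ℝ E]
    [FiniteDimensional ℝ E] [MeasurableSpace E] [BorelSpace E] (W : sphere (0 : E) 1 → E) : ℝ :=
  ∫ x : sphere (0 : E) 1, √((1 + (covDeriv W x).adjoint ∘L covDeriv W x).det)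
    ∂(volume : Measure E).toSphere

/-- The divergence of a vector field on the unit sphere: the trace of its covariant derivative. -/
noncomputable def divergence {E : Type*} [NormedAddCommGroup E] [InnerProductSpace ℝ E]
    (W : sphere (0 : E) 1 → E) (x : sphere (0 : E) 1) : ℝ :=
  LinearMap.trace ℝ E (covDeriv W x : E →ₗ[ℝ] E)

/-- The odd part `(det (I + ∇W) - det (I - ∇W)) / 2` at the point `x`. -/
noncomputable def oddPart {E : Type*} [NormedAddCommGroup E] [InnerProductSpace ℝ E]
    (W : sphere (0 : E) 1 → E) (x : sphere (0 : E) 1) : ℝ :=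
  ((1 + covDeriv W x).det - (1 - covDeriv W x).det) / 2

/-- `W` is a Hopf field of length `r`: `W x = r J x` with `J` an orthogonal complex structure. -/
def IsHopf {E : Type*} [NormedAddCommGroup E] [InnerProductSpace ℝ E] (r : ℝ)
    (W : sphere (0 : E) 1 → E) : Prop :=
  ∃ J : E →L[ℝ] E, (∀ x y, ⟪J x, J y⟫ = ⟪x, y⟫) ∧ (∀ x, J (J x) = -x) ∧
    ∀ x : sphere (0 : E) 1, W x = r • J x

/-- Comparison of the volume of a `C¹` field of constant length `r` on the sphere of dimension
`2m+1` with that of the Hopf fields: with the odd part of `det (I + ∇W)` in all dimensions, and with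
the divergence in dimension five. -/
theorem result.{u} (m : ℕ) (hm : 1 ≤ m) {r : ℝ} (hr : 0 < r) {E : Type u} [NormedAddCommGroup E]
    [InnerProductSpace ℝ E] [FiniteDimensional ℝ E] [MeasurableSpace E] [BorelSpace E]
    [Fact (finrank ℝ E = 2 * m + 1 + 1)] :
    (∀ W : sphere (0 : E) 1 → E, ContMDiff (𝓡 (2 * m + 1)) 𝓘(ℝ, E) 1 W →
      (∀ x : sphere (0 : E) 1, ⟪(x : E), W x⟫ = 0) → (∀ x, ‖W x‖ = r) →
      ((1 + r ^ 2) ^ m * (volume : Measure E).toSphere.real univ
          ≤ ∫ x : sphere (0 : E) 1, √((1 + (covDeriv W x).adjoint ∘L covDeriv W x).det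
            + oddPart W x ^ 2) ∂(volume : Measure E).toSphere ∧
        (∫ x : sphere (0 : E) 1, √((1 + (covDeriv W x).adjoint ∘L covDeriv W x).det
            + oddPart W x ^ 2) ∂(volume : Measure E).toSphere
          = (1 + r ^ 2) ^ m * (volume : Measure E).toSphere.real univ ↔ IsHopf r W)) ∧
      ((∀ x, (1 + covDeriv W x).det = (1 - covDeriv W x).det) →
        (1 + r ^ 2) ^ m * (volume : Measure E).toSphere.real univ ≤ fieldVolume W ∧
        (fieldVolume W = (1 + r ^ 2) ^ m * (volume : Measure E).toSphere.real univ ↔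
          IsHopf r W)) ∧
      (m = 2 →
        (1 + r ^ 2) ^ m * (volume : Measure E).toSphere.real univ
          ≤ fieldVolume W + 1 / 4 * ∫ x, divergence W x ^ 2 ∂(volume : Measure E).toSphere ∧
        (fieldVolume W + 1 / 4 * ∫ x, divergence W x ^ 2 ∂(volume : Measure E).toSphere
          = (1 + r ^ 2) ^ m * (volume : Measure E).toSphere.real univ ↔ IsHopf r W)) ∧
      (m = 2 → (∀ x, divergence W x = 0) →
        (1 + r ^ 2) ^ m * (volume : Measure E).toSphere.real univ ≤ fieldVolume W ∧
        (fieldVolume W = (1 + r ^ 2) ^ m * (volume : Measure E).toSphere.real univ ↔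
          IsHopf r W))) ∧
    ∃ W : sphere (0 : E) 1 → E, ContMDiff (𝓡 (2 * m + 1)) 𝓘(ℝ, E) ∞ W ∧
      (∀ x : sphere (0 : E) 1, ⟪(x : E), W x⟫ = 0) ∧ (∀ x, ‖W x‖ = r) ∧
      (∀ x, (1 + covDeriv W x).det = (1 - covDeriv W x).det) ∧ (∀ x, divergence W x = 0) ∧
      fieldVolume W = (1 + r ^ 2) ^ m * (volume : Measure E).toSphere.real univ :=
  Pool.Agent.Helper59.DF.final m hm hr (E := E)

end Pool.Agent.Helper59.Old.SolenoidalHopf
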