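import Pool.Agent.Helper59.HD.MainC

/-!
# MP_541d70_co: classification of centrally symmetric convex bodies with property `Sz(r)`, `r ≤ 3`
-/

namespace Pool.Agent.Results.MP_541d70_co.SymmetricUpToThree

open Pool.Agent.Helper59.HD

/-- For `1 ≤ r ≤ 3` and any `n`, a centrally symmetric convex body in `ℝⁿ` has property `Sz(r)` if
and only if it decomposes along a forest of blocks of coordinates such that on each root path the
product of the numbers (size of the block) + 1 is at most `r + 1`. -/
theorem result {n r : ℕ} (hr : 1 ≤ r) (hr3 : r ≤ 3) {F : Set (EuclideanSpace ℝ (Fin n))}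
    (hc : IsCompact F) (hconv : Convex ℝ F) (hint : (interior F).Nonempty)
    (c : EuclideanSpace ℝ (Fin n)) (hsymm : ∀ x ∈ F, c + c - x ∈ F) :
    Sz r F ↔ ∃ (m : ℕ) (e : EuclideanSpace ℝ (Fin n) ≃ₗ[ℝ] (Fin n → ℝ)) (blk : Fin n → Fin m)
      (le : Fin m → Fin m → Prop), Forest le ∧ Decomp e blk le F ∧
      ∀ x, ∏ y ∈ path le x, (bdim blk y + 1) ≤ r + 1 := by
  constructor
  · intro h
    obtain ⟨m, e, blk, le, h1, h2, h3⟩ :=
      product_le_three hr hr3 (symBody_of hc hconv hint c hsymm) (sz_recentre c h)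
    exact ⟨m, e, blk, le, h1, decomp_recentre c h2, h3⟩
  · rintro ⟨m, e, blk, le, h1, h2, h3⟩
    exact sz_of_decomp hconv e blk le h1 h2 h3

end Pool.Agent.Results.MP_541d70_co.SymmetricUpToThree
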